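import Mathlib

/-!
# Poisson random rays on `ℤ²`: the model and the critical intensity
-/

namespace Q292.RayPerc

open MeasureTheory ProbabilityTheory
open scoped ENNReal NNReal

/-- The four unit vectors `±e₁, ±e₂` of `ℤ²`. -/
def dir : Fin 4 → ℤ × ℤ := ![(1, 0), (-1, 0), (0, 1), (0, -1)]

/-- The ray `{x, x + e, …, x + ℓ e}` rooted at `x`, with direction `e = dir a.1` and
length `ℓ = a.2`. -/
def ray (x : ℤ × ℤ) (a : Fin 4 × ℕ) : Set (ℤ × ℤ) := {z | ∃ j ≤ a.2, z = x + j • dir a.1}

/-- The law of (direction, length): the direction is uniform, the length has law `ν`, and they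
are independent. -/
noncomputable def rayLaw (ν : PMF ℕ) : Measure (Fin 4 × ℕ) :=
  (PMF.uniformOfFintype (Fin 4)).toMeasure.prod ν.toMeasure

/-- The data at one vertex: the number of rays rooted there, and a sequence of rays of which
the first `N` are used. -/
abbrev Site := ℕ × (ℕ → Fin 4 × ℕ)

/-- The law of the data at one vertex: `N` is Poisson of parameter `lam`, the rays are i.i.d.
of law `rayLaw ν`, and independent of `N`. -/
noncomputable def siteLaw (ν : PMF ℕ) (lam : ℝ≥0) : Measure Site :=
  (poissonMeasure lam).prod (Measure.infinitePi fun _ : ℕ => rayLaw ν)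

/-- A configuration: the data at every vertex. -/
abbrev Config := ℤ × ℤ → Site

/-- The law of the configuration: i.i.d. over the vertices of `ℤ²`. -/
noncomputable def law (ν : PMF ℕ) (lam : ℝ≥0) : Measure Config :=
  Measure.infinitePi fun _ : ℤ × ℤ => siteLaw ν lam

/-- The occupied set: the union over all vertices `x` of the first `N_x` rays rooted at `x`. -/
def occupied (ω : Config) : Set (ℤ × ℤ) :=
  {z | ∃ x, ∃ i < (ω x).1, z ∈ ray x ((ω x).2 i)}

/-- The nearest-neighbour graph on `ℤ²`. -/
def square : SimpleGraph (ℤ × ℤ) where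
  Adj x y := |x.1 - y.1| + |x.2 - y.2| = 1
  symm := ⟨fun x y h => by rwa [abs_sub_comm y.1, abs_sub_comm y.2]⟩
  loopless := ⟨fun x h => by simp at h⟩

/-- The vertex set `S` has an infinite connected component. -/
def Percolates (S : Set (ℤ × ℤ)) : Prop :=
  ∃ c : (square.induce S).ConnectedComponent, c.supp.Infinite

/-- The critical intensity `λ_c(ν)`, the infimum of all `λ > 0` for which the occupied set has
an infinite component with positive probability (`∞` if there is no such `λ`). -/
noncomputable def lamc (ν : PMF ℕ) : ℝ≥0∞ :=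
  sInf {l : ℝ≥0∞ | ∃ lam : ℝ≥0, 0 < lam ∧ l = lam ∧ 0 < law ν lam {ω | Percolates (occupied ω)}}

end Q292.RayPerc
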