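import Mathlib
import Pool.Agent.Q292.RayPerc.Defs

/-!
# Geometry of crossings
-/

namespace Q292.RayPerc

/-- sup-norm distance -/
def far (c z : ℤ × ℤ) : ℤ := max |z.1 - c.1| |z.2 - c.2|

theorem far_comm (c z : ℤ × ℤ) : far c z = far z c := by
  rw [far, far, abs_sub_comm z.1, abs_sub_comm z.2]

theorem far_self (c : ℤ × ℤ) : far c c = 0 := by simp [far]

theorem far_nonneg (c z : ℤ × ℤ) : 0 ≤ far c z := le_max_of_le_left (abs_nonneg _)

theorem far_triangle (a b c : ℤ × ℤ) : far a c ≤ far a b + far b c := by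
  unfold far
  have h1 := abs_sub_le c.1 b.1 a.1
  have h2 := abs_sub_le c.2 b.2 a.2
  have h3 := le_max_left |b.1 - a.1| |b.2 - a.2|
  have h4 := le_max_right |b.1 - a.1| |b.2 - a.2|
  have h5 := le_max_left |c.1 - b.1| |c.2 - b.2|
  have h6 := le_max_right |c.1 - b.1| |c.2 - b.2|
  exact max_le (by linarith) (by linarith)

theorem far_adj {a b : ℤ × ℤ} (h : square.Adj a b) (c : ℤ × ℤ) : far c b ≤ far c a + 1 := by
  have h1 : |a.1 - b.1| + |a.2 - b.2| = 1 := h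
  have h2 : far a b ≤ 1 := by
    unfold far
    rw [abs_sub_comm b.1, abs_sub_comm b.2]
    have := abs_nonneg (a.1 - b.1)
    have := abs_nonneg (a.2 - b.2)
    exact max_le (by linarith) (by linarith)
  have := far_triangle c a b
  linarith

/-- one step inside `T` -/
def Step (T : Set (ℤ × ℤ)) (a b : ℤ × ℤ) : Prop := a ∈ T ∧ b ∈ T ∧ square.Adj a b

theorem Step.symm {T : Set (ℤ × ℤ)} {a b : ℤ × ℤ} (h : Step T a b) : Step T b a :=
  ⟨h.2.1, h.1, h.2.2.symm⟩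

/-- connected by steps inside `T` -/
abbrev Conn (T : Set (ℤ × ℤ)) : ℤ × ℤ → ℤ × ℤ → Prop := Relation.ReflTransGen (Step T)

theorem Conn.mono {T T' : Set (ℤ × ℤ)} (h : T ⊆ T') {a b : ℤ × ℤ} (hab : Conn T a b) :
    Conn T' a b := by
  induction hab with
  | refl => exact Relation.ReflTransGen.refl
  | tail _ hs ih => exact ih.tail ⟨h hs.1, h hs.2.1, hs.2.2⟩

theorem Conn.symm {T : Set (ℤ × ℤ)} {a b : ℤ × ℤ} (h : Conn T a b) : Conn T b a := by
  induction h with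
  | refl => exact Relation.ReflTransGen.refl
  | tail _ hs ih => exact Relation.ReflTransGen.head hs.symm ih

/-- The annulus crossing event: inside `T` and the ball of radius `2 n`, a vertex at distance at
most `n` from `c` is connected to a vertex at distance `2 n`. -/
def cross (T : Set (ℤ × ℤ)) (c : ℤ × ℤ) (n : ℤ) : Prop :=
  ∃ u w, far c u ≤ n ∧ far c w = 2 * n ∧ Conn (T ∩ {z | far c z ≤ 2 * n}) u w

theorem cross_mono {T T' : Set (ℤ × ℤ)} {c : ℤ × ℤ} {n : ℤ}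
    (h : ∀ z ∈ T, far c z ≤ 2 * n → z ∈ T') (hc : cross T c n) : cross T' c n := by
  obtain ⟨u, w, hu, hw, huw⟩ := hc
  have hsub : T ∩ {z | far c z ≤ 2 * n} ⊆ T' ∩ {z | far c z ≤ 2 * n} :=
    fun z hz => ⟨h z hz.1 hz.2, hz.2⟩
  exact ⟨u, w, hu, hw, Conn.mono hsub huw⟩

theorem exit {T : Set (ℤ × ℤ)} {c u w : ℤ × ℤ} {n : ℤ} (hn : 0 ≤ n) (h : Conn T u w)
    (hu : far c u ≤ n) (hw : 2 * n ≤ far c w) : cross T c n := by
  have key : ∀ b, Conn T u b → ((far c b ≤ 2 * n ∧ Conn (T ∩ {z | far c z ≤ 2 * n}) u b) ∨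
      ∃ w', far c w' = 2 * n ∧ Conn (T ∩ {z | far c z ≤ 2 * n}) u w') := by
    intro b hb
    induction hb with
    | refl => exact Or.inl ⟨by linarith, Relation.ReflTransGen.refl⟩
    | tail _ hs ih =>
      rename_i b b' _
      rcases ih with ⟨h1, h2⟩ | h
      · rcases h1.eq_or_lt with h3 | h3
        · exact Or.inr ⟨b, h3, h2⟩
        · have h4 := far_adj hs.2.2 c
          have h5 : far c b' ≤ 2 * n := by omega
          exact Or.inl ⟨h5, h2.tail ⟨⟨hs.1, h1⟩, ⟨hs.2.1, h5⟩, hs.2.2⟩⟩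
      · exact Or.inr h
  rcases key w h with ⟨h1, h2⟩ | ⟨w', h1, h2⟩
  · exact ⟨u, w, hu, le_antisymm h1 hw, h2⟩
  · exact ⟨u, w', hu, h1, h2⟩

/-- the grid point below `u` -/
theorem grid (x u : ℤ × ℤ) {n K : ℤ} (hn : 1 ≤ n) (hu : far x u ≤ K * n) :
    ∃ i j : ℤ, -K ≤ i ∧ i ≤ K ∧ -K ≤ j ∧ j ≤ K ∧ far (x.1 + n * i, x.2 + n * j) u ≤ n := by
  have aux : ∀ a : ℤ, |a| ≤ K * n → -K ≤ a / n ∧ a / n ≤ K ∧ |a - n * (a / n)| ≤ n := by
    intro a ha
    rw [abs_le] at ha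
    have h1 := Int.mul_ediv_add_emod a n
    have h2 := Int.emod_nonneg a (show n ≠ 0 by omega)
    have h3 := Int.emod_lt_of_pos a (show 0 < n by omega)
    refine ⟨?_, ?_, ?_⟩
    · rw [Int.le_ediv_iff_mul_le (by omega)]
      linarith
    · have : a / n < K + 1 := by
        rw [Int.ediv_lt_iff_lt_mul (by omega)]
        nlinarith
      omega
    · rw [abs_le]
      constructor <;> linarith
  have hu1 : |u.1 - x.1| ≤ K * n := le_trans (le_max_left _ _) hu
  have hu2 : |u.2 - x.2| ≤ K * n := le_trans (le_max_right _ _) hu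
  obtain ⟨a1, a2, a3⟩ := aux _ hu1
  obtain ⟨b1, b2, b3⟩ := aux _ hu2
  refine ⟨(u.1 - x.1) / n, (u.2 - x.2) / n, a1, a2, b1, b2, ?_⟩
  unfold far
  refine max_le ?_ ?_
  · simpa [sub_sub] using a3
  · simpa [sub_sub] using b3

/-- The renormalisation step: a crossing at scale `10 n` creates two far apart crossings at
scale `n`. -/
theorem cross_step {T : Set (ℤ × ℤ)} {x : ℤ × ℤ} {n : ℤ} (hn : 1 ≤ n)
    (h : cross T x (10 * n)) : ∃ i j i' j' : ℤ, (-10 ≤ i ∧ i ≤ 10) ∧ (-10 ≤ j ∧ j ≤ 10) ∧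
      (-20 ≤ i' ∧ i' ≤ 20) ∧ (-20 ≤ j' ∧ j' ≤ 20) ∧
      6 * n < far (x.1 + n * i, x.2 + n * j) (x.1 + n * i', x.2 + n * j') ∧
      cross T (x.1 + n * i, x.2 + n * j) n ∧ cross T (x.1 + n * i', x.2 + n * j') n := by
  obtain ⟨u, w, hu, hw, huw⟩ := h
  have huw' : Conn T u w := Conn.mono Set.inter_subset_left huw
  obtain ⟨i, j, hi1, hi2, hj1, hj2, hy⟩ := grid x u hn hu
  obtain ⟨i', j', hi1', hi2', hj1', hj2', hz⟩ := grid (K := 20) x w hn (by omega)
  set y : ℤ × ℤ := (x.1 + n * i, x.2 + n * j) with hydef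
  set z : ℤ × ℤ := (x.1 + n * i', x.2 + n * j') with hzdef
  have e1 : far x w ≤ far x u + far u w := far_triangle _ _ _
  have e2 : far u w ≤ far u y + far y w := far_triangle _ _ _
  have e3 : far y w ≤ far y z + far z w := far_triangle _ _ _
  have e4 : far u y = far y u := far_comm _ _
  have e5 : far z u + far z w ≥ far u w := by
    have := far_triangle u z w
    rw [far_comm u z] at this
    linarith
  refine ⟨i, j, i', j', ⟨hi1, hi2⟩, ⟨hj1, hj2⟩, ⟨hi1', hi2'⟩, ⟨hj1', hj2'⟩, ?_, ?_, ?_⟩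
  · change 6 * n < far y z
    omega
  · exact exit (c := y) (by omega) huw' hy (by omega)
  · exact exit (c := z) (by omega) huw'.symm hz (by omega)

end Q292.RayPerc
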