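import Mathlib
import Pool.Agent.Q292.RayPerc.Defs
import Pool.Agent.Q292.RayPerc.Geom

/-!
# Probability estimates for the crossing events
-/

namespace Q292.RayPerc

open MeasureTheory ProbabilityTheory
open scoped ENNReal NNReal

instance (ν : PMF ℕ) : IsProbabilityMeasure (rayLaw ν) := by
  unfold rayLaw; infer_instance

instance (ν : PMF ℕ) (lam : ℝ≥0) : IsProbabilityMeasure (siteLaw ν lam) := by
  unfold siteLaw; infer_instance

instance (ν : PMF ℕ) (lam : ℝ≥0) : IsProbabilityMeasure (law ν lam) := by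
  unfold law; infer_instance

/-- The ball as a finset. -/
noncomputable def ball (c : ℤ × ℤ) (R : ℤ) : Finset (ℤ × ℤ) :=
  Finset.Icc (c.1 - R) (c.1 + R) ×ˢ Finset.Icc (c.2 - R) (c.2 + R)

theorem mem_ball {c z : ℤ × ℤ} {R : ℤ} : z ∈ ball c R ↔ far c z ≤ R := by
  rw [ball, Finset.mem_product, Finset.mem_Icc, Finset.mem_Icc, far, max_le_iff, abs_le, abs_le]
  constructor
  · rintro ⟨⟨h1, h2⟩, h3, h4⟩
    exact ⟨⟨by linarith, by linarith⟩, by linarith, by linarith⟩
  · rintro ⟨⟨h1, h2⟩, h3, h4⟩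
    exact ⟨⟨by linarith, by linarith⟩, by linarith, by linarith⟩

theorem far_ray {x z : ℤ × ℤ} {a : Fin 4 × ℕ} (h : z ∈ ray x a) : far x z ≤ a.2 := by
  obtain ⟨j, hj, rfl⟩ := h
  obtain ⟨e, l⟩ := a
  simp only at hj
  have hj' : (j : ℤ) ≤ l := by exact_mod_cast hj
  have hj0 : (0 : ℤ) ≤ j := by positivity
  fin_cases e <;> simp [far, dir, abs_of_nonneg hj0, hj']

/-- Occupied by rays of length at most `n`. -/
def occ (n : ℕ) (ω : Config) : Set (ℤ × ℤ) :=
  {z | ∃ x, ∃ i < (ω x).1, ((ω x).2 i).2 ≤ n ∧ z ∈ ray x ((ω x).2 i)}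

/-- The same for rays rooted in `D`. -/
def occR (D : Finset (ℤ × ℤ)) (n : ℕ) (η : D → Site) : Set (ℤ × ℤ) :=
  {z | ∃ x : D, ∃ i < (η x).1, ((η x).2 i).2 ≤ n ∧ z ∈ ray x ((η x).2 i)}

theorem mem_occ_iff {n : ℕ} {ω : Config} {c z : ℤ × ℤ} (hz : far c z ≤ 2 * n) :
    z ∈ occ n ω ↔ z ∈ occR (ball c (3 * n)) n (fun x => ω x) := by
  constructor
  · rintro ⟨x, i, hi, hl, hx⟩
    have h1 : far x z ≤ n := (far_ray hx).trans (by exact_mod_cast hl)
    have h2 := far_triangle c z x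
    rw [far_comm z x] at h2
    exact ⟨⟨x, mem_ball.2 (by linarith)⟩, i, hi, hl, hx⟩
  · rintro ⟨x, i, hi, hl, hx⟩
    exact ⟨x, i, hi, hl, hx⟩

theorem measurable_occR (D : Finset (ℤ × ℤ)) (n : ℕ) (z : ℤ × ℤ) :
    MeasurableSet {η : D → Site | z ∈ occR D n η} := by
  have : {η : D → Site | z ∈ occR D n η} =
      ⋃ x : D, ⋃ i : ℕ, ((fun η : D → Site => (η x).1) ⁻¹' {k | i < k}) ∩
        ((fun η : D → Site => (η x).2 i) ⁻¹' {a | a.2 ≤ n ∧ z ∈ ray x a}) := by
    ext η
    simp only [occR, Set.mem_ofPred_eq, Set.mem_iUnion, Set.mem_inter_iff, Set.mem_preimage]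
  rw [this]
  refine MeasurableSet.iUnion fun x => MeasurableSet.iUnion fun i => MeasurableSet.inter ?_ ?_
  · exact measurable_fst.comp (measurable_pi_apply x) (MeasurableSet.of_discrete)
  · exact ((measurable_pi_apply i).comp (measurable_snd.comp (measurable_pi_apply x)))
      (MeasurableSet.of_discrete)

/-- The crossing event in restricted coordinates. -/
def Eset (D : Finset (ℤ × ℤ)) (n : ℕ) (c : ℤ × ℤ) : Set (D → Site) :=
  {η | cross (occR D n η) c n}

theorem measurable_Eset (D : Finset (ℤ × ℤ)) (n : ℕ) (c : ℤ × ℤ) :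
    MeasurableSet (Eset D n c) := by
  let F : (D → Site) → (ball c (2 * n) → Prop) := fun η z => z.1 ∈ occR D n η
  have hF : Measurable F := by
    refine measurable_pi_iff.2 fun z => ?_
    exact measurableSet_setOfPred.1 (measurable_occR D n z)
  have : Eset D n c = F ⁻¹' {t | cross {z | ∃ h : z ∈ ball c (2 * n), t ⟨z, h⟩} c n} := by
    ext η
    simp only [Eset, Set.mem_ofPred_eq, Set.mem_preimage]
    constructor
    · exact cross_mono fun z hz hcz => ⟨mem_ball.2 hcz, hz⟩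
    · exact cross_mono fun z hz _ => hz.2
  rw [this]
  exact hF (MeasurableSet.of_discrete)

/-- The crossing event. -/
def E (n : ℕ) (c : ℤ × ℤ) : Set Config := {ω | cross (occ n ω) c n}

theorem E_eq (n : ℕ) (c : ℤ × ℤ) :
    E n c = (fun (ω : Config) (x : ball c (3 * n)) => ω x) ⁻¹' Eset (ball c (3 * n)) n c := by
  ext ω
  simp only [E, Eset, Set.mem_ofPred_eq, Set.mem_preimage]
  constructor
  · exact cross_mono fun z hz hcz => (mem_occ_iff hcz).1 hz
  · exact cross_mono fun z hz hcz => (mem_occ_iff hcz).2 hz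

theorem measurable_E (n : ℕ) (c : ℤ × ℤ) : MeasurableSet (E n c) := by
  rw [E_eq]
  exact (measurable_pi_iff.2 fun x => measurable_pi_apply _) (measurable_Eset _ _ _)

theorem E_indep (ν : PMF ℕ) (lam : ℝ≥0) {n : ℕ} {y z : ℤ × ℤ} (h : 6 * (n : ℤ) < far y z) :
    law ν lam (E n y ∩ E n z) = law ν lam (E n y) * law ν lam (E n z) := by
  have hd : Disjoint (ball y (3 * n)) (ball z (3 * n)) := by
    rw [Finset.disjoint_left]
    intro w hw hw'
    rw [mem_ball] at hw hw'
    have := far_triangle y w z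
    rw [far_comm w z] at this
    linarith
  have hi : iIndepFun (fun (i : ℤ × ℤ) (ω : Config) => ω i) (law ν lam) :=
    iIndepFun_infinitePi (X := fun _ ω => ω) (fun _ => measurable_id)
  have h2 := hi.indepFun_finset _ _ hd (fun i => measurable_pi_apply i)
  rw [E_eq n y, E_eq n z]
  exact h2.measure_inter_preimage_eq_mul _ _ (measurable_Eset _ _ _) (measurable_Eset _ _ _)

theorem poisson_mean (lam : ℝ≥0) : ∑' i : ℕ, poissonMeasure lam {k | i < k} = lam := by
  have h1 : ∀ i : ℕ, poissonMeasure lam {k | i < k} =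
      ∫⁻ k, (if i < k then 1 else 0) ∂(poissonMeasure lam) := by
    intro i
    rw [← lintegral_indicator_one (MeasurableSet.of_discrete (s := {k : ℕ | i < k}))]
    refine lintegral_congr fun k => ?_
    simp only [Set.indicator_apply, Set.mem_ofPred_eq, Pi.one_apply]
  simp_rw [h1]
  rw [← lintegral_tsum (fun i => (measurable_of_countable _).aemeasurable)]
  have h2 : ∀ k : ℕ, (∑' i : ℕ, if i < k then (1 : ℝ≥0∞) else 0) = k := by
    intro k
    rw [tsum_eq_sum (s := Finset.range k) (fun i hi => by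
      rw [Finset.mem_range] at hi
      rw [if_neg hi])]
    rw [Finset.sum_congr rfl (g := fun _ => 1) (fun i hi => if_pos (Finset.mem_range.1 hi))]
    simp
  simp_rw [h2]
  rw [lintegral_countable', tsum_eq_zero_add' ENNReal.summable]
  simp only [poissonMeasure_singleton, Nat.cast_zero, zero_mul, zero_add]
  have h3 : ∀ k : ℕ, ((k + 1 : ℕ) : ℝ≥0∞) *
      ENNReal.ofReal (Real.exp (-lam) * (lam : ℝ) ^ (k + 1) / (k + 1).factorial) =
      lam * ENNReal.ofReal (Real.exp (-lam) * (lam : ℝ) ^ k / k.factorial) := by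
    intro k
    rw [← ENNReal.ofReal_natCast, ← ENNReal.ofReal_coe_nnreal,
      ← ENNReal.ofReal_mul (by positivity), ← ENNReal.ofReal_mul (by positivity)]
    congr 1
    rw [Nat.factorial_succ]
    push_cast
    field_simp
    ring
  simp_rw [h3]
  rw [ENNReal.tsum_mul_left, ← ENNReal.ofReal_tsum_of_nonneg (fun k => by positivity)
    (hasSum_one_poissonMeasure lam).summable, (hasSum_one_poissonMeasure lam).tsum_eq]
  simp

/-- A ray longer than `m` touches the ball of radius `R` around `c`. -/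
def Long (m : ℕ) (c : ℤ × ℤ) (R : ℕ) : Set Config :=
  {ω | ∃ x, ∃ i < (ω x).1, m < ((ω x).2 i).2 ∧ ∃ z ∈ ray x ((ω x).2 i), far c z ≤ R}

/-- The bad rays at `x`. -/
def F (m : ℕ) (c : ℤ × ℤ) (R : ℕ) (x : ℤ × ℤ) : Set (Fin 4 × ℕ) :=
  {a | m < a.2 ∧ ∃ z ∈ ray x a, far c z ≤ R}

theorem count_box (a b c d : ℤ) (hab : a ≤ b + 1) (hcd : c ≤ d + 1) :
    ((Finset.Icc a b ×ˢ Finset.Icc c d).card : ℤ) = (b + 1 - a) * (d + 1 - c) := by
  rw [Finset.card_product, Int.card_Icc, Int.card_Icc]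
  push_cast
  rw [Int.toNat_of_nonneg (by linarith), Int.toNat_of_nonneg (by linarith)]

/-- The roots from which the ray `a` touches the ball are in a box. -/
theorem count_roots (c : ℤ × ℤ) (R : ℕ) (a : Fin 4 × ℕ) :
    ∃ s : Finset (ℤ × ℤ), (∀ x, (∃ z ∈ ray x a, far c z ≤ R) → x ∈ s) ∧
      s.card = (2 * R + 1) * (2 * R + 1 + a.2) := by
  obtain ⟨e, l⟩ := a
  have key : ∀ (a b c' d : ℤ), b + 1 - a = 2 * R + 1 + l → d + 1 - c' = 2 * R + 1 →
      (Finset.Icc a b ×ˢ Finset.Icc c' d).card = (2 * R + 1) * (2 * R + 1 + l) := by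
    intro a b c' d h1 h2
    have := count_box a b c' d (by omega) (by omega)
    rw [h1, h2] at this
    zify
    rw [this]
    ring
  have key' : ∀ (a b c' d : ℤ), b + 1 - a = 2 * R + 1 → d + 1 - c' = 2 * R + 1 + l →
      (Finset.Icc a b ×ˢ Finset.Icc c' d).card = (2 * R + 1) * (2 * R + 1 + l) := by
    intro a b c' d h1 h2
    have := count_box a b c' d (by omega) (by omega)
    rw [h1, h2] at this
    zify
    rw [this]
  have hb : ∀ x z : ℤ × ℤ, far c z ≤ R → c.1 - R ≤ z.1 ∧ z.1 ≤ c.1 + R ∧ c.2 - R ≤ z.2 ∧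
      z.2 ≤ c.2 + R := by
    intro x z h
    unfold far at h
    have h1 := abs_le.1 ((le_max_left _ _).trans h)
    have h2 := abs_le.1 ((le_max_right _ _).trans h)
    exact ⟨by linarith [h1.1], by linarith [h1.2], by linarith [h2.1], by linarith [h2.2]⟩
  fin_cases e
  · refine ⟨Finset.Icc (c.1 - R - l) (c.1 + R) ×ˢ Finset.Icc (c.2 - R) (c.2 + R), ?_,
      key _ _ _ _ (by ring) (by ring)⟩
    rintro x ⟨z, ⟨j, hj, rfl⟩, hz⟩
    have hj' : (j : ℤ) ≤ l := by exact_mod_cast hj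
    have := hb x _ hz
    simp [dir] at this
    rw [Finset.mem_product, Finset.mem_Icc, Finset.mem_Icc]
    constructor <;> constructor <;> linarith [this.1, this.2.1, this.2.2.1, this.2.2.2]
  · refine ⟨Finset.Icc (c.1 - R) (c.1 + R + l) ×ˢ Finset.Icc (c.2 - R) (c.2 + R), ?_,
      key _ _ _ _ (by ring) (by ring)⟩
    rintro x ⟨z, ⟨j, hj, rfl⟩, hz⟩
    have hj' : (j : ℤ) ≤ l := by exact_mod_cast hj
    have := hb x _ hz
    simp [dir] at this
    rw [Finset.mem_product, Finset.mem_Icc, Finset.mem_Icc]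
    constructor <;> constructor <;> linarith [this.1, this.2.1, this.2.2.1, this.2.2.2]
  · refine ⟨Finset.Icc (c.1 - R) (c.1 + R) ×ˢ Finset.Icc (c.2 - R - l) (c.2 + R), ?_,
      key' _ _ _ _ (by ring) (by ring)⟩
    rintro x ⟨z, ⟨j, hj, rfl⟩, hz⟩
    have hj' : (j : ℤ) ≤ l := by exact_mod_cast hj
    have := hb x _ hz
    simp [dir] at this
    rw [Finset.mem_product, Finset.mem_Icc, Finset.mem_Icc]
    constructor <;> constructor <;> linarith [this.1, this.2.1, this.2.2.1, this.2.2.2]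
  · refine ⟨Finset.Icc (c.1 - R) (c.1 + R) ×ˢ Finset.Icc (c.2 - R) (c.2 + R + l), ?_,
      key' _ _ _ _ (by ring) (by ring)⟩
    rintro x ⟨z, ⟨j, hj, rfl⟩, hz⟩
    have hj' : (j : ℤ) ≤ l := by exact_mod_cast hj
    have := hb x _ hz
    simp [dir] at this
    rw [Finset.mem_product, Finset.mem_Icc, Finset.mem_Icc]
    constructor <;> constructor <;> linarith [this.1, this.2.1, this.2.2.1, this.2.2.2]

theorem sum_F_le (m : ℕ) (c : ℤ × ℤ) (R : ℕ) (a : Fin 4 × ℕ) :
    ∑' x : ℤ × ℤ, (F m c R x).indicator (fun _ => (1 : ℝ≥0∞)) a ≤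
      if m < a.2 then (((2 * R + 1) * (2 * R + 1 + a.2) : ℕ) : ℝ≥0∞) else 0 := by
  split_ifs with h
  · obtain ⟨s, hs, hcard⟩ := count_roots c R a
    rw [tsum_eq_sum (s := s) (fun x hx => by
      rw [Set.indicator_of_notMem]
      intro hF
      exact hx (hs x hF.2)), ← hcard]
    refine (Finset.sum_le_sum (g := fun _ => (1 : ℝ≥0∞)) fun x _ => ?_).trans (by simp)
    by_cases hF : a ∈ F m c R x
    · rw [Set.indicator_of_mem hF]
    · rw [Set.indicator_of_notMem hF]
      exact zero_le_one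
  · refine le_of_eq (ENNReal.tsum_eq_zero.2 ?_)
    intro x
    rw [Set.indicator_of_notMem]
    intro hF
    exact h hF.1

theorem site_event (ν : PMF ℕ) (lam : ℝ≥0) (x : ℤ × ℤ) (A : Set (Fin 4 × ℕ)) :
    law ν lam {ω | ∃ i < (ω x).1, (ω x).2 i ∈ A} ≤ lam * rayLaw ν A := by
  have hA : MeasurableSet A := MeasurableSet.of_discrete
  have h1 : {ω : Config | ∃ i < (ω x).1, (ω x).2 i ∈ A} =
      ⋃ i : ℕ, (fun ω : Config => ω x) ⁻¹' ({k | i < k} ×ˢ ((fun f : ℕ → Fin 4 × ℕ => f i) ⁻¹' A)) := by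
    ext ω
    simp only [Set.mem_ofPred_eq, Set.mem_iUnion, Set.mem_preimage, Set.mem_prod]
  rw [h1]
  refine (measure_iUnion_le _).trans ?_
  rw [← poisson_mean lam, ← ENNReal.tsum_mul_right]
  refine ENNReal.tsum_le_tsum fun i => ?_
  have hm : MeasurableSet (({k : ℕ | i < k} : Set ℕ) ×ˢ
      ((fun f : ℕ → Fin 4 × ℕ => f i) ⁻¹' A)) :=
    (MeasurableSet.of_discrete).prod (measurable_pi_apply i hA)
  rw [law, (measurePreserving_eval_infinitePi (fun _ : ℤ × ℤ => siteLaw ν lam) x).measure_preimage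
    hm.nullMeasurableSet, siteLaw, Measure.prod_prod,
    (measurePreserving_eval_infinitePi (fun _ : ℕ => rayLaw ν) i).measure_preimage
    hA.nullMeasurableSet]

theorem long_le (ν : PMF ℕ) (lam : ℝ≥0) (m : ℕ) (c : ℤ × ℤ) (R : ℕ) :
    law ν lam (Long m c R) ≤ lam * ∫⁻ l, (if m < l then
      (((2 * R + 1) * (2 * R + 1 + l) : ℕ) : ℝ≥0∞) else 0) ∂ν.toMeasure := by
  have h1 : Long m c R = ⋃ x : ℤ × ℤ, {ω | ∃ i < (ω x).1, (ω x).2 i ∈ F m c R x} := by
    ext ω
    simp only [Long, F, Set.mem_ofPred_eq, Set.mem_iUnion]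
  rw [h1]
  refine (measure_iUnion_le _).trans ?_
  refine (ENNReal.tsum_le_tsum fun x => site_event ν lam x _).trans ?_
  rw [ENNReal.tsum_mul_left]
  gcongr
  have h2 : ∀ x, rayLaw ν (F m c R x) =
      ∫⁻ a, (F m c R x).indicator (fun _ => (1 : ℝ≥0∞)) a ∂(rayLaw ν) := by
    intro x
    rw [lintegral_indicator_const MeasurableSet.of_discrete, one_mul]
  simp_rw [h2]
  rw [← lintegral_tsum (fun x => (measurable_of_countable _).aemeasurable)]
  refine (lintegral_mono fun a => sum_F_le m c R a).trans ?_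
  have h3 : MeasurePreserving (Prod.snd : Fin 4 × ℕ → ℕ) (rayLaw ν) ν.toMeasure := by
    unfold rayLaw
    exact measurePreserving_snd
  rw [← h3.lintegral_comp (measurable_of_countable _)]

end Q292.RayPerc
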