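import Mathlib
import Pool.Agent.Q292.RayPerc.Defs
import Pool.Agent.Q292.RayPerc.Geom
import Pool.Agent.Q292.RayPerc.Prob

/-!
# The renormalisation recursion
-/

namespace Q292.RayPerc

open MeasureTheory ProbabilityTheory Filter Topology
open scoped ENNReal NNReal

/-- worst crossing probability at scale `n` -/
noncomputable def pr (ν : PMF ℕ) (lam : ℝ≥0) (n : ℕ) : ℝ≥0∞ := ⨆ c, law ν lam (E n c)

/-- `E[L; L > n]` -/
noncomputable def tl (ν : PMF ℕ) (n : ℕ) : ℝ≥0∞ :=
  ∫⁻ l, (if n < l then (l : ℝ≥0∞) else 0) ∂ν.toMeasure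

theorem long_bound (ν : PMF ℕ) (lam : ℝ≥0) {n : ℕ} (hn : 1 ≤ n) (c : ℤ × ℤ) :
    law ν lam (Long n c (20 * n)) ≤ lam * (1722 * (n * tl ν n)) := by
  refine (long_le ν lam n c (20 * n)).trans ?_
  gcongr
  rw [tl, ← lintegral_const_mul _ (measurable_of_countable _),
    ← lintegral_const_mul _ (measurable_of_countable _)]
  refine lintegral_mono fun l => ?_
  dsimp only
  split_ifs with h
  · have : (2 * (20 * n) + 1) * (2 * (20 * n) + 1 + l) ≤ 1722 * (n * l) := by
      have h1 : 2 * (20 * n) + 1 ≤ 41 * n := by omega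
      have h2 : 2 * (20 * n) + 1 + l ≤ 42 * l := by omega
      calc _ ≤ (41 * n) * (42 * l) := Nat.mul_le_mul h1 h2
        _ = 1722 * (n * l) := by ring
    calc (((2 * (20 * n) + 1) * (2 * (20 * n) + 1 + l) : ℕ) : ℝ≥0∞)
        ≤ ((1722 * (n * l) : ℕ) : ℝ≥0∞) := by exact_mod_cast this
      _ = 1722 * (n * l) := by push_cast; rfl
  · exact zero_le

theorem Long_mono {m : ℕ} {c : ℤ × ℤ} {R R' : ℕ} (h : R ≤ R') : Long m c R ⊆ Long m c R' := by
  rintro ω ⟨x, i, hi, hm, z, hz, hR⟩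
  exact ⟨x, i, hi, hm, z, hz, hR.trans (by exact_mod_cast h)⟩

/-- the index set of pairs of grid points -/
noncomputable def Idx : Finset ((ℤ × ℤ) × (ℤ × ℤ)) :=
  (Finset.Icc (-10) 10 ×ˢ Finset.Icc (-10) 10) ×ˢ (Finset.Icc (-20) 20 ×ˢ Finset.Icc (-20) 20)

theorem card_Idx : Idx.card = 741321 := by
  rw [Idx, Finset.card_product, Finset.card_product, Finset.card_product, Int.card_Icc,
    Int.card_Icc]
  norm_num
  rfl

/-- grid point -/
def gp (x : ℤ × ℤ) (n : ℤ) (q : ℤ × ℤ) : ℤ × ℤ := (x.1 + n * q.1, x.2 + n * q.2)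

open Classical in
theorem E_sub {n : ℕ} (hn : 1 ≤ n) (x : ℤ × ℤ) :
    E (10 * n) x ⊆ Long n x (20 * n) ∪ ⋃ q ∈ Idx,
      (if 6 * (n : ℤ) < far (gp x n q.1) (gp x n q.2) then E n (gp x n q.1) ∩ E n (gp x n q.2)
        else ∅) := by
  intro ω hω
  by_cases hL : ω ∈ Long n x (20 * n)
  · exact Or.inl hL
  refine Or.inr ?_
  have h1 : cross (occ n ω) x (10 * n) := by
    have hω' : cross (occ (10 * n) ω) x ((10 * n : ℕ) : ℤ) := hω
    push_cast at hω'
    refine cross_mono ?_ hω'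
    rintro z ⟨y, i, hi, hl, hz⟩ hxz
    refine ⟨y, i, hi, ?_, hz⟩
    by_contra hgt
    push Not at hgt
    exact hL ⟨y, i, hi, hgt, z, hz, by push_cast; linarith⟩
  obtain ⟨i, j, i', j', hi, hj, hi', hj', hfar, h2, h3⟩ :=
    cross_step (by exact_mod_cast hn) h1
  rw [Set.mem_iUnion₂]
  refine ⟨((i, j), (i', j')), ?_, ?_⟩
  · rw [Idx, Finset.mem_product, Finset.mem_product, Finset.mem_product, Finset.mem_Icc,
      Finset.mem_Icc, Finset.mem_Icc, Finset.mem_Icc]
    exact ⟨⟨hi, hj⟩, hi', hj'⟩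
  · rw [if_pos (show 6 * (n : ℤ) < far (gp x n (i, j)) (gp x n (i', j')) from hfar)]
    exact ⟨h2, h3⟩

theorem pr_step (ν : PMF ℕ) (lam : ℝ≥0) {n : ℕ} (hn : 1 ≤ n) :
    pr ν lam (10 * n) ≤ lam * (1722 * (n * tl ν n)) + 741321 * (pr ν lam n * pr ν lam n) := by
  classical
  refine iSup_le fun x => ?_
  refine (measure_mono (E_sub hn x)).trans ((measure_union_le _ _).trans ?_)
  refine add_le_add (long_bound ν lam hn x) ?_
  refine (measure_biUnion_finset_le _ _).trans ?_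
  have : ∀ q ∈ Idx, law ν lam (if 6 * (n : ℤ) < far (gp x n q.1) (gp x n q.2) then
      E n (gp x n q.1) ∩ E n (gp x n q.2) else ∅) ≤ pr ν lam n * pr ν lam n := by
    intro q _
    split_ifs with h
    · rw [E_indep ν lam h]
      exact mul_le_mul' (le_iSup (fun c => law ν lam (E n c)) _)
        (le_iSup (fun c => law ν lam (E n c)) _)
    · simp
  refine (Finset.sum_le_card_nsmul _ _ _ this).trans ?_
  rw [card_Idx, nsmul_eq_mul]
  push_cast
  rfl

theorem pr_one (ν : PMF ℕ) (lam : ℝ≥0) : pr ν lam 1 ≤ 49 * lam := by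
  refine iSup_le fun c => ?_
  have h1 : E 1 c ⊆ ⋃ x ∈ ball c 3, {ω : Config | ∃ i < (ω x).1, (ω x).2 i ∈ Set.univ} := by
    rintro ω ⟨u, w, hu, hw, huw⟩
    have hz : ∃ z ∈ occ 1 ω, far c z ≤ 2 := by
      rcases Relation.ReflTransGen.cases_head huw with h | ⟨v, hv, -⟩
      · exfalso
        rw [h] at hu
        push_cast at hu hw
        linarith
      · exact ⟨u, hv.1.1, by simpa using hv.1.2⟩
    obtain ⟨z, ⟨x, i, hi, hl, hx⟩, hz2⟩ := hz
    rw [Set.mem_iUnion₂]
    refine ⟨x, mem_ball.2 ?_, i, hi, Set.mem_univ _⟩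
    have h2 := far_ray hx
    have h3 := far_triangle c z x
    rw [far_comm z x] at h3
    have h4 : (((ω x).2 i).2 : ℤ) ≤ 1 := by exact_mod_cast hl
    linarith
  refine (measure_mono h1).trans ((measure_biUnion_finset_le _ _).trans ?_)
  refine (Finset.sum_le_card_nsmul _ _ (lam : ℝ≥0∞) fun x _ => ?_).trans ?_
  · refine (site_event ν lam x Set.univ).trans ?_
    rw [measure_univ, mul_one]
  · have : (ball c 3).card = 49 := by
      have := count_box (c.1 - 3) (c.1 + 3) (c.2 - 3) (c.2 + 3) (by linarith) (by linarith)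
      rw [ball]
      zify
      rw [this]
      ring
    rw [this, nsmul_eq_mul]
    push_cast
    rfl

theorem pr_le_one (ν : PMF ℕ) (lam : ℝ≥0) (n : ℕ) : pr ν lam n ≤ 1 :=
  iSup_le fun _ => prob_le_one

theorem rec_tendsto (a r : ℕ → ℝ) (ha0 : ∀ k, 0 ≤ a k) (ha : ∀ k, a k ≤ 1)
    (h : ∀ k, a (k + 1) ≤ a k / 4 + r k) (hr : Tendsto r atTop (𝓝 0)) :
    Tendsto a atTop (𝓝 0) := by
  rw [Metric.tendsto_atTop]
  intro ε hε
  obtain ⟨K, hK⟩ := (Metric.tendsto_atTop.1 hr) (ε / 4) (by positivity)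
  have key : ∀ j, a (K + j) ≤ (1 / 4 : ℝ) ^ j + ε / 2 := by
    intro j
    induction j with
    | zero => simpa using (ha K).trans (by linarith)
    | succ j ih =>
      have h1 := h (K + j)
      have h2 := hK (K + j) (by omega)
      rw [Real.dist_eq, sub_zero] at h2
      have h3 := (abs_lt.1 h2).2
      rw [← add_assoc, pow_succ]
      linarith
  obtain ⟨J, hJ⟩ := exists_pow_lt_of_lt_one (show 0 < ε / 2 by positivity)
    (show (1 / 4 : ℝ) < 1 by norm_num)
  refine ⟨K + J, fun n hn => ?_⟩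
  rw [Real.dist_eq, sub_zero, abs_of_nonneg (ha0 n)]
  obtain ⟨j, rfl⟩ : ∃ j, n = K + j := ⟨n - K, by omega⟩
  have h1 := key j
  have h2 : (1 / 4 : ℝ) ^ j ≤ (1 / 4 : ℝ) ^ J :=
    pow_le_pow_of_le_one (by norm_num) (by norm_num) (by omega)
  linarith

theorem Conn_of_reachable {S : Set (ℤ × ℤ)} {x y : S} (h : (square.induce S).Reachable x y) :
    Conn S x y := by
  rw [SimpleGraph.reachable_iff_reflTransGen] at h
  induction h with
  | refl => exact Relation.ReflTransGen.refl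
  | tail _ hs ih =>
    rename_i b c _
    exact ih.tail ⟨b.2, c.2, hs⟩

theorem tl_bound (ν : PMF ℕ) (h : Tendsto (fun n : ℕ => (n : ℝ≥0∞) * tl ν n) atTop (𝓝 0)) :
    ∃ M : ℝ≥0, ∀ n : ℕ, (n : ℝ≥0∞) * tl ν n ≤ M := by
  obtain ⟨n0, hn0⟩ := eventually_atTop.1 ((tendsto_order.1 h).2 1 one_pos)
  have h1 : (n0 + 1 : ℕ) * tl ν (n0 + 1) < 1 := hn0 (n0 + 1) (by omega)
  have h2 : tl ν (n0 + 1) ≤ 1 := by
    refine le_trans ?_ h1.le
    refine le_mul_of_one_le_left' ?_
    exact_mod_cast Nat.succ_pos n0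
  have h3 : tl ν 0 ≤ (n0 + 1 : ℕ) + 1 := by
    refine le_trans ?_ (add_le_add le_rfl h2)
    have : ((n0 + 1 : ℕ) : ℝ≥0∞) = ∫⁻ _, ((n0 + 1 : ℕ) : ℝ≥0∞) ∂ν.toMeasure := by
      rw [lintegral_const, measure_univ, mul_one]
    rw [this, tl, tl, ← lintegral_add_left measurable_const]
    refine lintegral_mono fun l => ?_
    dsimp only
    by_cases hl : n0 + 1 < l
    · rw [if_pos hl, if_pos (by omega)]
      exact le_add_self
    · rw [if_neg hl, add_zero]
      split_ifs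
      · exact_mod_cast not_lt.1 hl
      · exact zero_le
  have h4 : ∀ n, tl ν n ≤ tl ν 0 := by
    intro n
    refine lintegral_mono fun l => ?_
    dsimp only
    by_cases hl : n < l
    · rw [if_pos hl, if_pos (by omega)]
    · rw [if_neg hl]
      exact zero_le
  refine ⟨n0 * ((n0 + 1 : ℕ) + 1) + 1, fun n => ?_⟩
  push_cast
  by_cases hn : n0 ≤ n
  · exact (hn0 n hn).le.trans le_add_self
  · refine le_trans ?_ le_self_add
    push Not at hn
    have := (h4 n).trans h3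
    push_cast at this
    exact mul_le_mul' (by exact_mod_cast hn.le) this

theorem subcritical (ν : PMF ℕ) (h : Tendsto (fun n : ℕ => (n : ℝ≥0∞) * tl ν n) atTop (𝓝 0)) :
    ∃ lam0 : ℝ≥0, 0 < lam0 ∧ ∀ lam ≤ lam0, law ν lam {ω | Percolates (occupied ω)} = 0 := by
  obtain ⟨M, hM⟩ := tl_bound ν h
  refine ⟨1 / (10000000000 * (M + 1)), by positivity, fun lam hlam => ?_⟩
  have hlam1 : (lam : ℝ) * (10000000000 * (M + 1)) ≤ 1 := by
    have : lam * (10000000000 * (M + 1)) ≤ 1 := by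
      rwa [← le_div_iff₀ (by positivity)]
    exact_mod_cast this
  have hM0 : (0 : ℝ) ≤ M := M.2
  have hlam0 : (0 : ℝ) ≤ lam := lam.2
  have hlM : (lam : ℝ) * M ≤ 1 / 10000000000 := by nlinarith
  have hl1 : (lam : ℝ) ≤ 1 / 10000000000 := by nlinarith
  set a : ℕ → ℝ := fun k => (pr ν lam (10 ^ k)).toReal with ha
  set r : ℕ → ℝ := fun k => ((lam : ℝ≥0∞) * (1722 * (((10 ^ k : ℕ) : ℝ≥0∞) * tl ν (10 ^ k)))).toReal
    with hr
  have hprt : ∀ n, pr ν lam n ≠ ∞ := fun n => ((pr_le_one ν lam n).trans_lt ENNReal.one_lt_top).ne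
  have hrt : ∀ n : ℕ, (lam : ℝ≥0∞) * (1722 * ((n : ℝ≥0∞) * tl ν n)) ≠ ∞ := fun n =>
    ENNReal.mul_ne_top ENNReal.coe_ne_top (ENNReal.mul_ne_top (by norm_num)
      ((hM n).trans_lt ENNReal.coe_lt_top).ne)
  have ha0 : ∀ k, 0 ≤ a k := fun k => ENNReal.toReal_nonneg
  have ha1 : ∀ k, a k ≤ 1 := fun k => by
    have := ENNReal.toReal_mono ENNReal.one_ne_top (pr_le_one ν lam (10 ^ k))
    simpa using this
  have hr1 : ∀ k, r k ≤ 1 / 5000000 := by
    intro k
    have h1 : r k ≤ lam * (1722 * M) := by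
      have := ENNReal.toReal_mono (b := (lam : ℝ≥0∞) * (1722 * M)) (ENNReal.mul_ne_top
        ENNReal.coe_ne_top (ENNReal.mul_ne_top (by norm_num) ENNReal.coe_ne_top))
        (mul_le_mul' le_rfl (mul_le_mul' le_rfl (hM (10 ^ k))))
      simpa [hr] using this
    linarith
  have hrec : ∀ k, a (k + 1) ≤ r k + 741321 * (a k * a k) := by
    intro k
    have h1 := pr_step ν lam (n := 10 ^ k) (Nat.one_le_pow _ _ (by norm_num))
    rw [show 10 * 10 ^ k = 10 ^ (k + 1) by ring] at h1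
    have h2 := ENNReal.toReal_mono (ENNReal.add_ne_top.2 ⟨hrt _, ENNReal.mul_ne_top (by norm_num)
      (ENNReal.mul_ne_top (hprt _) (hprt _))⟩) h1
    rw [ENNReal.toReal_add (hrt _) (ENNReal.mul_ne_top (by norm_num)
      (ENNReal.mul_ne_top (hprt _) (hprt _))), ENNReal.toReal_mul (a := 741321), ENNReal.toReal_mul
      (a := pr ν lam (10 ^ k))] at h2
    simpa [ha, hr] using h2
  have hsmall : ∀ k, a k ≤ 1 / 3000000 := by
    intro k
    induction k with
    | zero =>
      have h1 := ENNReal.toReal_mono (b := 49 * (lam : ℝ≥0∞)) (ENNReal.mul_ne_top (by norm_num)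
        ENNReal.coe_ne_top) (pr_one ν lam)
      have h2 : a 0 ≤ 49 * lam := by simpa [ha] using h1
      linarith
    | succ k ih =>
      have h1 := hrec k
      have h2 := hr1 k
      have h3 := ha0 k
      nlinarith
  have hrtend : Tendsto r atTop (𝓝 0) := by
    have h1 : Tendsto (fun k : ℕ => (10 : ℕ) ^ k) atTop atTop :=
      tendsto_pow_atTop_atTop_of_one_lt (by norm_num)
    have h2 := h.comp h1
    have h3 : Tendsto (fun k : ℕ => (lam : ℝ≥0∞) * (1722 * (((10 ^ k : ℕ) : ℝ≥0∞) * tl ν (10 ^ k))))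
        atTop (𝓝 ((lam : ℝ≥0∞) * (1722 * 0))) :=
      ENNReal.Tendsto.const_mul (ENNReal.Tendsto.const_mul h2 (Or.inr (by norm_num)))
        (Or.inr ENNReal.coe_ne_top)
    rw [mul_zero, mul_zero] at h3
    have h4 := (ENNReal.tendsto_toReal ENNReal.zero_ne_top).comp h3
    rw [ENNReal.toReal_zero] at h4
    exact h4
  have hatend : Tendsto a atTop (𝓝 0) := by
    refine rec_tendsto a r ha0 ha1 (fun k => ?_) hrtend
    have h1 := hrec k
    have h2 := hsmall k
    have h3 := ha0 k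
    nlinarith
  -- every single vertex is in a finite cluster
  have hx : ∀ x : ℤ × ℤ, law ν lam {ω | ∀ R : ℤ, ∃ w, R ≤ far x w ∧ Conn (occupied ω) x w} = 0 := by
    intro x
    have hle : ∀ k : ℕ, law ν lam {ω | ∀ R : ℤ, ∃ w, R ≤ far x w ∧ Conn (occupied ω) x w} ≤
        ENNReal.ofReal (a k + r k) := by
      intro k
      have hsub : {ω | ∀ R : ℤ, ∃ w, R ≤ far x w ∧ Conn (occupied ω) x w} ⊆
          E (10 ^ k) x ∪ Long (10 ^ k) x (20 * 10 ^ k) := by
        intro ω hω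
        by_cases hL : ω ∈ Long (10 ^ k) x (20 * 10 ^ k)
        · exact Or.inr hL
        refine Or.inl ?_
        obtain ⟨w, hw, hc⟩ := hω (2 * ((10 ^ k : ℕ) : ℤ))
        have h1 : cross (occupied ω) x ((10 ^ k : ℕ) : ℤ) :=
          exit (by positivity) hc (by rw [far_self]; positivity) hw
        refine cross_mono ?_ h1
        rintro z ⟨y, i, hi, hz⟩ hxz
        refine ⟨y, i, hi, ?_, hz⟩
        by_contra hgt
        push Not at hgt
        refine hL ⟨y, i, hi, hgt, z, hz, hxz.trans ?_⟩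
        push_cast
        have : (0 : ℤ) ≤ 10 ^ k := by positivity
        linarith
      refine (measure_mono hsub).trans ((measure_union_le _ _).trans ?_)
      rw [ENNReal.ofReal_add (ha0 k) ENNReal.toReal_nonneg]
      refine add_le_add ?_ ?_
      · rw [ha, ENNReal.ofReal_toReal (hprt _)]
        exact le_iSup (fun c => law ν lam (E (10 ^ k) c)) x
      · change _ ≤ ENNReal.ofReal (ENNReal.toReal _)
        rw [ENNReal.ofReal_toReal (hrt _)]
        exact long_bound ν lam (Nat.one_le_pow _ _ (by norm_num)) x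
    have ht : Tendsto (fun k => ENNReal.ofReal (a k + r k)) atTop (𝓝 0) := by
      have := (ENNReal.tendsto_ofReal (hatend.add hrtend))
      simpa using this
    exact le_antisymm (ge_of_tendsto' ht hle) zero_le
  refine measure_mono_null ?_ ((measure_iUnion_null_iff).2 hx)
  rintro ω ⟨c, hc⟩
  obtain ⟨x, hxc⟩ := hc.nonempty
  rw [Set.mem_iUnion]
  refine ⟨x, fun R => ?_⟩
  by_contra hcon
  push Not at hcon
  apply hc
  refine Set.Finite.subset (s := Subtype.val ⁻¹' (ball (x : ℤ × ℤ) R : Set (ℤ × ℤ)))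
    (Set.Finite.preimage (Subtype.val_injective.injOn) (Finset.finite_toSet _)) ?_
  intro y hy
  have hreach : (square.induce (occupied ω)).Reachable x y := by
    rw [SimpleGraph.ConnectedComponent.mem_supp_iff] at hxc hy
    exact SimpleGraph.ConnectedComponent.exact (hxc.trans hy.symm)
  have h1 : far x y < R := by
    by_contra h2
    exact hcon y (not_lt.1 h2) (Conn_of_reachable hreach)
  exact Finset.mem_coe.2 (mem_ball.2 h1.le)

theorem lamc_pos (ν : PMF ℕ) (h : Tendsto (fun n : ℕ => (n : ℝ≥0∞) * tl ν n) atTop (𝓝 0)) :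
    0 < lamc ν := by
  obtain ⟨lam0, h0, h1⟩ := subcritical ν h
  refine lt_of_lt_of_le (ENNReal.coe_pos.2 h0) (le_sInf ?_)
  rintro l ⟨lam, hpos, rfl, hp⟩
  by_contra hlt
  push Not at hlt
  rw [h1 lam (by exact_mod_cast hlt.le)] at hp
  exact lt_irrefl _ hp

end Q292.RayPerc
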