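import Mathlib
import Pool.Agent.Q292.RayPerc.Defs
import Pool.Agent.Q292.RayPerc.Rec

/-!
# Tail conditions and the explicit length law
-/

namespace Q292.RayPerc

open MeasureTheory ProbabilityTheory Filter Topology
open scoped ENNReal NNReal

theorem tl_le (ν : PMF ℕ) (n : ℕ) :
    tl ν n ≤ n * ν.toMeasure {l | n + 1 ≤ l} + ∑' k : ℕ, ν.toMeasure {l | n + 1 + k ≤ l} := by
  have h1 : ∀ m : ℕ, ν.toMeasure {l | m ≤ l} = ∫⁻ l, (if m ≤ l then 1 else 0) ∂ν.toMeasure := by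
    intro m
    rw [← lintegral_indicator_one (MeasurableSet.of_discrete (s := {l : ℕ | m ≤ l}))]
    refine lintegral_congr fun k => ?_
    simp only [Set.indicator_apply, Set.mem_ofPred_eq, Pi.one_apply]
  simp_rw [h1]
  rw [← lintegral_tsum (fun i => (measurable_of_countable _).aemeasurable),
    ← lintegral_const_mul _ (measurable_of_countable _),
    ← lintegral_add_left (measurable_of_countable _), tl]
  refine lintegral_mono fun l => ?_
  dsimp only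
  by_cases hl : n < l
  · have h2 : (∑' k : ℕ, if n + 1 + k ≤ l then (1 : ℝ≥0∞) else 0) = (l - n : ℕ) := by
      rw [tsum_eq_sum (s := Finset.range (l - n)) (fun i hi => by
        rw [Finset.mem_range] at hi
        rw [if_neg (by omega)])]
      rw [Finset.sum_congr rfl (g := fun _ => 1) (fun i hi => if_pos (by
        rw [Finset.mem_range] at hi
        omega))]
      simp
    rw [if_pos hl, h2, if_pos (by omega), mul_one]
    have : l = n + (l - n) := by omega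
    exact_mod_cast this.le
  · rw [if_neg hl]
    exact zero_le

theorem sum_sq_le {n : ℕ} (hn : 1 ≤ n) :
    ∑' k : ℕ, ENNReal.ofReal (1 / ((n : ℝ) + 1 + k) ^ 2) ≤ ENNReal.ofReal (1 / n) := by
  have hn' : (0 : ℝ) < n := by exact_mod_cast hn
  refine ENNReal.tsum_le_of_sum_range_le fun K => ?_
  rw [← ENNReal.ofReal_sum_of_nonneg (fun k _ => by positivity)]
  refine ENNReal.ofReal_le_ofReal ?_
  have key : ∀ K : ℕ, ∑ k ∈ Finset.range K, 1 / ((n : ℝ) + 1 + k) ^ 2 ≤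
      1 / (n : ℝ) - 1 / ((n : ℝ) + K) := by
    intro K
    induction K with
    | zero => simp
    | succ K ih =>
      rw [Finset.sum_range_succ]
      have h1 : 1 / ((n : ℝ) + 1 + K) ^ 2 ≤ 1 / ((n : ℝ) + K) - 1 / ((n : ℝ) + (K + 1 : ℕ)) := by
        rw [div_sub_div _ _ (by positivity) (by positivity), div_le_div_iff₀ (by positivity)
          (by positivity)]
        push_cast
        have : (0 : ℝ) ≤ K := by positivity
        nlinarith
      linarith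
  have := key K
  have : (0 : ℝ) ≤ 1 / ((n : ℝ) + K) := by positivity
  linarith [key K]

theorem tendsto_of_tail (ν : PMF ℕ)
    (h : Tendsto (fun n : ℕ => (n : ℝ≥0∞) ^ 2 * ν.toMeasure {l | n ≤ l}) atTop (𝓝 0)) :
    Tendsto (fun n : ℕ => (n : ℝ≥0∞) * tl ν n) atTop (𝓝 0) := by
  rw [ENNReal.tendsto_atTop_zero]
  intro ε hε
  rcases eq_or_ne ε ∞ with rfl | hεt
  · exact ⟨0, fun n _ => le_top⟩
  set δ : ℝ := (ε / 2).toReal with hδ
  have hε2 : ε / 2 ≠ ∞ := ENNReal.div_ne_top hεt (by norm_num)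
  have hδ0 : 0 < δ := ENNReal.toReal_pos (ENNReal.div_pos hε.ne' (by norm_num)).ne' hε2
  have hδe : ENNReal.ofReal δ = ε / 2 := ENNReal.ofReal_toReal hε2
  obtain ⟨N, hN⟩ := (ENNReal.tendsto_atTop_zero.1 h) (ENNReal.ofReal δ)
    (ENNReal.ofReal_pos.2 hδ0)
  have htail : ∀ m : ℕ, N ≤ m → 1 ≤ m →
      ν.toMeasure {l | m ≤ l} ≤ ENNReal.ofReal (δ * (1 / (m : ℝ) ^ 2)) := by
    intro m hm hm1
    have h1 := hN m hm
    have hm0 : (0 : ℝ) < m := by exact_mod_cast hm1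
    rw [show δ * (1 / (m : ℝ) ^ 2) = δ / (m : ℝ) ^ 2 by ring,
      ENNReal.ofReal_div_of_pos (by positivity), ENNReal.ofReal_pow hm0.le, ENNReal.ofReal_natCast,
      ENNReal.le_div_iff_mul_le (Or.inl (by positivity)) (Or.inl (by simp)), mul_comm]
    exact h1
  refine ⟨max N 1, fun n hn => ?_⟩
  have hnN : N ≤ n := le_trans (le_max_left _ _) hn
  have hn1 : 1 ≤ n := le_trans (le_max_right _ _) hn
  have hn0 : (0 : ℝ) < n := by exact_mod_cast hn1
  have e1 : (n : ℝ≥0∞) * (n * ν.toMeasure {l | n + 1 ≤ l}) ≤ ENNReal.ofReal δ := by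
    refine le_trans ?_ (hN (n + 1) (by omega))
    rw [← mul_assoc, ← sq]
    gcongr
    exact_mod_cast Nat.le_succ n
  have e2 : (n : ℝ≥0∞) * ∑' k : ℕ, ν.toMeasure {l | n + 1 + k ≤ l} ≤ ENNReal.ofReal δ := by
    have e3 : ∑' k : ℕ, ν.toMeasure {l | n + 1 + k ≤ l} ≤
        ENNReal.ofReal δ * ENNReal.ofReal (1 / n) := by
      calc ∑' k : ℕ, ν.toMeasure {l | n + 1 + k ≤ l}
          ≤ ∑' k : ℕ, ENNReal.ofReal δ * ENNReal.ofReal (1 / ((n : ℝ) + 1 + k) ^ 2) := by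
            refine ENNReal.tsum_le_tsum fun k => ?_
            rw [← ENNReal.ofReal_mul hδ0.le]
            have := htail (n + 1 + k) (by omega) (by omega)
            push_cast at this
            exact this
        _ = ENNReal.ofReal δ * ∑' k : ℕ, ENNReal.ofReal (1 / ((n : ℝ) + 1 + k) ^ 2) :=
            ENNReal.tsum_mul_left
        _ ≤ _ := by
            gcongr
            exact sum_sq_le hn1
    calc (n : ℝ≥0∞) * ∑' k : ℕ, ν.toMeasure {l | n + 1 + k ≤ l}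
        ≤ ENNReal.ofReal n * (ENNReal.ofReal δ * ENNReal.ofReal (1 / n)) := by
          rw [ENNReal.ofReal_natCast]
          gcongr
      _ = ENNReal.ofReal δ := by
          rw [← ENNReal.ofReal_mul hδ0.le, ← ENNReal.ofReal_mul hn0.le]
          congr 1
          field_simp
  calc (n : ℝ≥0∞) * tl ν n ≤ n * (n * ν.toMeasure {l | n + 1 ≤ l} +
        ∑' k : ℕ, ν.toMeasure {l | n + 1 + k ≤ l}) := by
        gcongr
        exact tl_le ν n
    _ = n * (n * ν.toMeasure {l | n + 1 ≤ l}) +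
        n * ∑' k : ℕ, ν.toMeasure {l | n + 1 + k ≤ l} := mul_add _ _ _
    _ ≤ ENNReal.ofReal δ + ENNReal.ofReal δ := add_le_add e1 e2
    _ = ε := by rw [hδe, ENNReal.add_halves]

/-! ### the explicit law -/

/-- unnormalised weights -/
noncomputable def wt (k : ℕ) : ℝ≥0∞ := (4⁻¹ : ℝ≥0∞) ^ k * ((k : ℝ≥0∞) + 1)⁻¹

theorem wt_le (k : ℕ) : wt k ≤ (4⁻¹ : ℝ≥0∞) ^ k := by
  rw [wt]
  refine mul_le_of_le_one_right' ?_
  exact ENNReal.inv_le_one.2 le_add_self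

theorem tsum_geom4 : ∑' k : ℕ, (4⁻¹ : ℝ≥0∞) ^ k ≠ ∞ := by
  rw [ENNReal.tsum_geometric]
  refine ENNReal.inv_ne_top.2 ?_
  rw [ne_eq, tsub_eq_zero_iff_le, not_le]
  exact ENNReal.inv_lt_one.2 (by norm_num)

theorem wt_sum_ne_top : ∑' k, wt k ≠ ∞ :=
  ((ENNReal.tsum_le_tsum wt_le).trans_lt (lt_top_iff_ne_top.2 tsum_geom4)).ne

theorem one_le_wt_sum : 1 ≤ ∑' k, wt k := by
  refine le_trans ?_ (ENNReal.le_tsum 0)
  simp [wt]

/-- law of the exponent -/
noncomputable def kap : PMF ℕ :=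
  PMF.normalize wt (one_pos.trans_le one_le_wt_sum).ne' wt_sum_ne_top

theorem kap_apply (k : ℕ) : kap k = wt k * (∑' k, wt k)⁻¹ := PMF.normalize_apply _ _ _

theorem kap_le (k : ℕ) : kap k ≤ wt k := by
  rw [kap_apply]
  exact mul_le_of_le_one_right' (ENNReal.inv_le_one.2 one_le_wt_sum)

/-- The length law `P(L = 2^k) = c 4^{-k} / (k+1)`. -/
noncomputable def dyadic : PMF ℕ := kap.map (fun k => 2 ^ k)

theorem lintegral_dyadic (f : ℕ → ℝ≥0∞) :
    ∫⁻ l, f l ∂dyadic.toMeasure = ∑' k, f (2 ^ k) * kap k := by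
  rw [dyadic, ← PMF.toMeasure_map _ _ (measurable_of_countable _),
    lintegral_map (measurable_of_countable _) (measurable_of_countable _), lintegral_countable']
  refine tsum_congr fun k => ?_
  rw [PMF.toMeasure_apply_singleton _ _ (measurableSet_singleton _)]

theorem harmonic_top : ∑' k : ℕ, ((k : ℝ≥0∞) + 1)⁻¹ = ∞ := by
  by_contra h
  have h1 : Summable fun k : ℕ => (((k : ℝ≥0∞) + 1)⁻¹).toReal := ENNReal.summable_toReal h
  have h2 : (fun k : ℕ => (((k : ℝ≥0∞) + 1)⁻¹).toReal) = fun k : ℕ => 1 / ((k + 1 : ℕ) : ℝ) := by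
    funext k
    rw [ENNReal.toReal_inv, ENNReal.toReal_add (by simp) (by simp)]
    simp
  rw [h2, summable_nat_add_iff 1 (f := fun k : ℕ => 1 / (k : ℝ))] at h1
  exact Real.not_summable_one_div_natCast h1

theorem four_pow (k : ℕ) : (4 : ℝ≥0∞) ^ k * (4⁻¹) ^ k = 1 := by
  rw [← mul_pow, ENNReal.mul_inv_cancel (by norm_num) (by norm_num), one_pow]

theorem two_pow (k : ℕ) : (2 : ℝ≥0∞) ^ k * (4⁻¹) ^ k = (2⁻¹) ^ k := by
  rw [← mul_pow]
  congr 1
  rw [show (4 : ℝ≥0∞) = 2 * 2 by norm_num, ENNReal.mul_inv (by norm_num) (by norm_num),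
    ← mul_assoc, ENNReal.mul_inv_cancel (by norm_num) (by norm_num), one_mul]

theorem dyadic_second : ∫⁻ l, ((l : ℝ≥0∞) + 1) ^ 2 ∂dyadic.toMeasure = ∞ := by
  rw [lintegral_dyadic]
  rw [← top_le_iff]
  have h1 : ∑' k : ℕ, ((k : ℝ≥0∞) + 1)⁻¹ * (∑' k, wt k)⁻¹ = ∞ := by
    rw [ENNReal.tsum_mul_right, harmonic_top, ENNReal.top_mul (ENNReal.inv_ne_zero.2 wt_sum_ne_top)]
  rw [← h1]
  refine ENNReal.tsum_le_tsum fun k => ?_
  rw [kap_apply, wt]
  calc ((k : ℝ≥0∞) + 1)⁻¹ * (∑' k, wt k)⁻¹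
      = (4 ^ k * (4⁻¹) ^ k) * ((k : ℝ≥0∞) + 1)⁻¹ * (∑' k, wt k)⁻¹ := by rw [four_pow, one_mul]
    _ = 4 ^ k * ((4⁻¹) ^ k * ((k : ℝ≥0∞) + 1)⁻¹ * (∑' k, wt k)⁻¹) := by ring
    _ ≤ _ := by
        refine mul_le_mul' ?_ le_rfl
        push_cast
        calc (4 : ℝ≥0∞) ^ k = (2 ^ k) ^ 2 := by
              rw [← pow_mul, mul_comm k 2, pow_mul]; norm_num
          _ ≤ (2 ^ k + 1) ^ 2 := pow_le_pow_left' le_self_add 2

theorem tsum_half : ∑' k : ℕ, (2⁻¹ : ℝ≥0∞) ^ k = 2 := by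
  rw [ENNReal.tsum_geometric, ENNReal.one_sub_inv_two, inv_inv]

theorem dyadic_first : ∫⁻ l, ((l : ℝ≥0∞) + 1) ∂dyadic.toMeasure ≠ ∞ := by
  rw [lintegral_dyadic]
  refine ne_of_lt (lt_of_le_of_lt (b := ∑' k : ℕ, 2 * (2⁻¹ : ℝ≥0∞) ^ k) ?_ ?_)
  · refine ENNReal.tsum_le_tsum fun k => ?_
    calc (((2 ^ k : ℕ) : ℝ≥0∞) + 1) * kap k ≤ (2 * 2 ^ k) * (4⁻¹) ^ k := by
          refine mul_le_mul' ?_ ((kap_le k).trans (wt_le k))
          push_cast
          rw [two_mul]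
          gcongr
          exact one_le_pow₀ (by norm_num)
      _ = 2 * (2⁻¹) ^ k := by rw [mul_assoc, two_pow]
  · rw [ENNReal.tsum_mul_left, tsum_half]
    norm_num

theorem dyadic_tl (n : ℕ) (hn : 1 ≤ n) :
    (n : ℝ≥0∞) * tl dyadic n ≤ 2 * ((Nat.log 2 n : ℝ≥0∞) + 1)⁻¹ := by
  set m := Nat.log 2 n with hm
  have hm1 : 2 ^ m ≤ n := Nat.pow_log_le_self 2 (by omega)
  have hm2 : n < 2 ^ (m + 1) := Nat.lt_pow_succ_log_self (by norm_num) n
  rw [tl, lintegral_dyadic]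
  have h1 : ∑' k : ℕ, (if n < 2 ^ k then ((2 ^ k : ℕ) : ℝ≥0∞) else 0) * kap k ≤
      ∑' k : ℕ, (2⁻¹ : ℝ≥0∞) ^ (m + 1) * ((m : ℝ≥0∞) + 1)⁻¹ * (2⁻¹) ^ k := by
    rw [← ENNReal.summable.sum_add_tsum_nat_add' (k := m + 1)]
    rw [Finset.sum_eq_zero, zero_add]
    · refine ENNReal.tsum_le_tsum fun j => ?_
      split_ifs with hj
      · push_cast
        calc (2 : ℝ≥0∞) ^ (j + (m + 1)) * kap (j + (m + 1))
            ≤ 2 ^ (j + (m + 1)) * ((4⁻¹) ^ (j + (m + 1)) * ((m : ℝ≥0∞) + 1)⁻¹) := by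
              gcongr
              refine (kap_le _).trans ?_
              rw [wt]
              gcongr
              omega
          _ = (2⁻¹) ^ (m + 1) * ((m : ℝ≥0∞) + 1)⁻¹ * (2⁻¹) ^ j := by
              rw [← mul_assoc, two_pow, pow_add]
              ring
      · rw [zero_mul]
        exact zero_le
    · intro k hk
      rw [Finset.mem_range] at hk
      rw [if_neg, zero_mul]
      have : 2 ^ k ≤ 2 ^ m := Nat.pow_le_pow_right (by norm_num) (by omega)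
      omega
  refine (mul_le_mul' le_rfl h1).trans ?_
  rw [ENNReal.tsum_mul_left, tsum_half]
  calc (n : ℝ≥0∞) * ((2⁻¹) ^ (m + 1) * ((m : ℝ≥0∞) + 1)⁻¹ * 2)
      ≤ (2 ^ (m + 1)) * ((2⁻¹) ^ (m + 1) * ((m : ℝ≥0∞) + 1)⁻¹ * 2) := by
        gcongr
        exact_mod_cast hm2.le
    _ = (2 ^ (m + 1) * (2⁻¹) ^ (m + 1)) * (2 * ((m : ℝ≥0∞) + 1)⁻¹) := by ring
    _ = 2 * ((m : ℝ≥0∞) + 1)⁻¹ := by
        rw [← mul_pow, ENNReal.mul_inv_cancel (by norm_num) (by norm_num), one_pow, one_mul]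

theorem dyadic_tendsto : Tendsto (fun n : ℕ => (n : ℝ≥0∞) * tl dyadic n) atTop (𝓝 0) := by
  have h1 : Tendsto (fun n : ℕ => 2 * ((Nat.log 2 n : ℝ≥0∞) + 1)⁻¹) atTop (𝓝 0) := by
    have h2 : Tendsto (fun n : ℕ => ((Nat.log 2 n : ℝ≥0∞) + 1)) atTop (𝓝 ∞) := by
      have h3 : Tendsto (fun n : ℕ => ((Nat.log 2 n : ℕ) : ℝ≥0∞)) atTop (𝓝 ∞) :=
        ENNReal.tendsto_nat_nhds_top.comp (Filter.tendsto_atTop_atTop.2 fun b =>
          ⟨2 ^ b, fun n hn => Nat.le_log_of_pow_le (by norm_num) hn⟩)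
      exact tendsto_nhds_top_mono' h3 fun n => le_self_add
    have h3 : Tendsto (fun n : ℕ => ((Nat.log 2 n : ℝ≥0∞) + 1)⁻¹) atTop (𝓝 0) := by
      have := h2.inv
      simpa using this
    have h4 := ENNReal.Tendsto.const_mul (a := 2) h3 (Or.inr (by norm_num))
    simpa using h4
  refine tendsto_of_tendsto_of_tendsto_of_le_of_le' tendsto_const_nhds h1
    (Eventually.of_forall fun n => zero_le) ?_
  filter_upwards [eventually_ge_atTop 1] with n hn using dyadic_tl n hn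

end Q292.RayPerc
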